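import Mathlib
import Pool.Agent.Lib.MP_29a61e_co.Defs

section
/-!
# MP_29a61e_co: pair insertion

Two copies of the same pattern of `m` letters, facing each other, are sorted by `m` moves.
-/
namespace Pool.Agent.Lib.MP29a61eH

open Pool.Agent.Lib.MP29a61e

variable {α : Type}

theorem steps_trans : ∀ {a b : ℕ} {u v w : List α}, Steps a u v → Steps b v w → Steps (a + b) u w
  | 0, b, u, v, w, h1, h2 => by
      have h1' : u = v := h1
      subst h1'
      simpa using h2
  | a + 1, b, u, v, w, h1, h2 => by
      obtain ⟨t, ht, h1⟩ := h1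
      have h := steps_trans h1 h2
      rw [show a + 1 + b = (a + b) + 1 by omega]
      exact ⟨t, ht, h⟩

theorem steps_one {w w' : List α} (h : Move w w') : Steps 1 w w' := ⟨w', h, rfl⟩

theorem move_symm {w w' : List α} (h : Move w w') : Move w' w := by
  obtain ⟨X, B, Y, U, V, hB, rfl, hz, h | h⟩ := h
  · exact ⟨U, B, V, X, Y, hB, h, hz.symm, Or.inl rfl⟩
  · exact ⟨U, B.reverse, V, X, Y, by simpa using hB, h, hz.symm, Or.inr (by simp)⟩

theorem steps_symm : ∀ {k : ℕ} {w w' : List α}, Steps k w w' → Steps k w' w
  | 0, w, w', h => (show w = w' from h) ▸ rfl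
  | k + 1, w, w', h => by
      obtain ⟨u, hu, h⟩ := h
      exact steps_trans (steps_symm h) (steps_one (move_symm hu))

/-- `w'` is reached from `w` by at most `c` moves. -/
def Reach (c : ℕ) (w w' : List α) : Prop := ∃ k, k ≤ c ∧ Steps k w w'

theorem Reach.refl (w : List α) : Reach 0 w w := ⟨0, le_rfl, rfl⟩

theorem Reach.mono {c d : ℕ} {w w' : List α} (h : Reach c w w') (hcd : c ≤ d) : Reach d w w' := by
  obtain ⟨k, hk, h⟩ := h
  exact ⟨k, hk.trans hcd, h⟩

theorem Reach.trans {c d : ℕ} {u v w : List α} (h : Reach c u v) (h' : Reach d v w) :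
    Reach (c + d) u w := by
  obtain ⟨k, hk, h⟩ := h
  obtain ⟨l, hl, h'⟩ := h'
  exact ⟨k + l, by omega, steps_trans h h'⟩

theorem Reach.symm {c : ℕ} {w w' : List α} (h : Reach c w w') : Reach c w' w := by
  obtain ⟨k, hk, h⟩ := h
  exact ⟨k, hk, steps_symm h⟩

theorem Reach.of_move {w w' : List α} (h : Move w w') : Reach 1 w w' := ⟨1, le_rfl, steps_one h⟩

/-- The letters `f u, .., f (v-1)`. -/
def seg (f : ℕ → α) (u v : ℕ) : List α := (List.range' u (v - u)).map f

theorem seg_self (f : ℕ → α) (u : ℕ) : seg f u u = [] := by simp [seg]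

theorem seg_append (f : ℕ → α) {u v w : ℕ} (h1 : u ≤ v) (h2 : v ≤ w) :
    seg f u v ++ seg f v w = seg f u w := by
  unfold seg
  rw [← List.map_append]
  congr 1
  have h := List.range'_append_1 (s := u) (m := v - u) (n := w - v)
  rw [show u + (v - u) = v by omega, show v - u + (w - v) = w - u by omega] at h
  exact h

theorem seg_one (f : ℕ → α) (u : ℕ) : seg f u (u + 1) = [f u] := by simp [seg]

theorem seg_succ (f : ℕ → α) {u v : ℕ} (h : u ≤ v) : seg f u (v + 1) = seg f u v ++ [f v] := by
  rw [← seg_append f h (Nat.le_succ v), seg_one]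

theorem seg_zero (f : ℕ → α) (m : ℕ) : seg f 0 m = (List.range m).map f := by
  simp [seg, List.range_eq_range']

/-- The letter `fa x`, preceded by the hairpin of the values `u, .., x-1`, for `p = (x, u)`. -/
def item (fa fb : ℕ → α) (p : ℕ × ℕ) : List α :=
  (seg fb p.2 p.1).reverse ++ seg fa p.2 (p.1 + 1)

/-- The hairpin at the right end. -/
def fin (fa fb : ℕ → α) (m u : ℕ) : List α := (seg fb u m).reverse ++ seg fa u m

/-- The word of a state of the pair insertion. -/
def pw (fa fb : ℕ → α) (m : ℕ) (L : List (ℕ × ℕ)) (ue : ℕ) : List α :=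
  (L.map (fun p => fb p.1)).reverse ++ L.flatMap (item fa fb) ++ fin fa fb m ue

theorem pair_steps (fa fb : ℕ → α) (m : ℕ) (X Z : List α) :
    ∀ (k : ℕ) (L : List (ℕ × ℕ)) (ue : ℕ), L.length = k → (∀ p ∈ L, p.2 ≤ p.1) → ue ≤ m →
      (L.map Prod.snd ++ [ue]).Perm (0 :: L.map (fun p => p.1 + 1)) →
      Steps k (X ++ pw fa fb m L ue ++ Z) (X ++ pw fa fb m [] 0 ++ Z)
  | 0, L, ue, hk, _, _, hp => by
      have hL : L = [] := List.length_eq_zero_iff.mp hk
      subst hL
      have : ue = 0 := by simpa using hp
      subst this
      rfl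
  | k + 1, [], _, hk, _, _, _ => by simp at hk
  | k + 1, (x, u) :: L, ue, hk, hle, hue, hp => by
      have hux : u ≤ x := hle (x, u) (by simp)
      have hmem : x + 1 ∈ u :: (L.map Prod.snd ++ [ue]) := by
        have : x + 1 ∈ (((x, u) :: L).map Prod.snd ++ [ue]) := hp.symm.subset (by simp)
        simpa using this
      have hne : x + 1 ≠ u := by omega
      have hmem' : x + 1 ∈ L.map Prod.snd ∨ x + 1 = ue := by
        simpa [hne] using hmem
      have hQ : [fb x] ++ item fa fb (x, u) =
          (seg fb u (x + 1)).reverse ++ seg fa u (x + 1) := by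
        simp [item, seg_succ fb hux]
      have hcnt := List.perm_iff_count.1 hp
      rcases hmem' with hmem' | hmem'
      · obtain ⟨⟨j, y⟩, hj, hy⟩ := List.mem_map.1 hmem'
        simp only at hy
        subst hy
        obtain ⟨L1, L2, rfl⟩ := List.append_of_mem hj
        have hxj : x + 1 ≤ j := hle (j, x + 1) (by simp)
        have ih := pair_steps fa fb m X Z k (L1 ++ (j, u) :: L2) ue
          (by simp at hk ⊢; omega)
          (by
            intro p hp'
            rcases List.mem_append.1 hp' with h | h
            · exact hle p (by simp [h])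
            · rcases List.mem_cons.1 h with h | h
              · subst h
                simp only
                omega
              · exact hle p (by simp [h]))
          hue
          (by
            rw [List.perm_iff_count]
            intro a
            have h := hcnt a
            simp only [List.map_cons, List.map_append, List.cons_append, List.append_assoc,
              List.count_append, List.count_cons, List.count_nil] at h ⊢
            omega)
        refine ⟨_, ?_, ih⟩
        refine ⟨X ++ ((L1 ++ (j, x + 1) :: L2).map (fun p => fb p.1)).reverse,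
          (seg fb u (x + 1)).reverse ++ seg fa u (x + 1),
          (L1 ++ (j, x + 1) :: L2).flatMap (item fa fb) ++ fin fa fb m ue ++ Z,
          X ++ ((L1 ++ (j, x + 1) :: L2).map (fun p => fb p.1)).reverse ++
            L1.flatMap (item fa fb) ++ (seg fb (x + 1) j).reverse,
          seg fa (x + 1) (j + 1) ++ L2.flatMap (item fa fb) ++ fin fa fb m ue ++ Z,
          ?_, ?_, ?_, Or.inl ?_⟩
        · simp [seg_succ fb hux]
        · rw [← hQ]
          simp [pw]
        · simp [item]
        · have e1 : item fa fb (j, u) = (seg fb (x + 1) j).reverse ++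
              ((seg fb u (x + 1)).reverse ++ seg fa u (x + 1)) ++ seg fa (x + 1) (j + 1) := by
            simp only [item]
            rw [← seg_append fb (show u ≤ x + 1 by omega) hxj,
              ← seg_append fa (show u ≤ x + 1 by omega) (show x + 1 ≤ j + 1 by omega)]
            simp
          simp only [pw, List.flatMap_append, List.flatMap_cons, e1]
          simp
      · subst hmem'
        have ih := pair_steps fa fb m X Z k L u
          (by simp at hk ⊢; omega)
          (fun p hp' => hle p (by simp [hp']))
          (by omega)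
          (by
            rw [List.perm_iff_count]
            intro a
            have h := hcnt a
            simp only [List.map_cons, List.cons_append, List.count_append, List.count_cons,
              List.count_nil] at h ⊢
            omega)
        refine ⟨_, ?_, ih⟩
        refine ⟨X ++ (L.map (fun p => fb p.1)).reverse,
          (seg fb u (x + 1)).reverse ++ seg fa u (x + 1),
          L.flatMap (item fa fb) ++ fin fa fb m (x + 1) ++ Z,
          X ++ (L.map (fun p => fb p.1)).reverse ++
            L.flatMap (item fa fb) ++ (seg fb (x + 1) m).reverse,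
          seg fa (x + 1) m ++ Z, ?_, ?_, ?_, Or.inl ?_⟩
        · simp [seg_succ fb hux]
        · rw [← hQ]
          simp [pw]
        · simp [fin]
        · have e1 : fin fa fb m u = (seg fb (x + 1) m).reverse ++
              ((seg fb u (x + 1)).reverse ++ seg fa u (x + 1)) ++ seg fa (x + 1) m := by
            simp only [fin]
            rw [← seg_append fb (show u ≤ x + 1 by omega) hue,
              ← seg_append fa (show u ≤ x + 1 by omega) hue]
            simp
          simp only [pw, e1]
          simp

theorem flatMap_item_diag (fa fb : ℕ → α) (σ : List ℕ) :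
    (σ.map (fun x => (x, x))).flatMap (item fa fb) = σ.map fa := by
  induction σ with
  | nil => rfl
  | cons x σ ih => simp [item, seg_self, seg_one, ih]

/-- Pair insertion: two facing copies of a word `σ` on `{0, .., m-1}` are sorted by `m` moves. -/
theorem pair_facing (fa fb : ℕ → α) (m : ℕ) (σ : List ℕ) (hσ : σ.Perm (List.range m))
    (X Z : List α) :
    Steps m (X ++ ((σ.map fb).reverse ++ σ.map fa) ++ Z)
      (X ++ (((List.range m).map fb).reverse ++ (List.range m).map fa) ++ Z) := by
  have h := pair_steps fa fb m X Z m (σ.map (fun x => (x, x))) m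
    (by simpa using hσ.length_eq) (by simp) le_rfl
    (by
      have h1 : ((σ.map (fun x => (x, x))).map Prod.snd ++ [m]) = σ ++ [m] := by
        simp [Function.comp_def]
      have h2 : (0 :: (σ.map (fun x => (x, x))).map (fun p => p.1 + 1)) =
          0 :: σ.map (fun x => x + 1) := by simp
      rw [h1, h2]
      have h3 : (σ ++ [m]).Perm (List.range (m + 1)) := by
        rw [List.range_succ]
        exact hσ.append_right [m]
      have h4 : (0 :: σ.map (fun x => x + 1)).Perm (List.range (m + 1)) := by
        rw [List.range_succ_eq_map]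
        exact (hσ.map _).cons 0
      exact h3.trans h4.symm)
  have e0 : pw fa fb m (σ.map (fun x => (x, x))) m = (σ.map fb).reverse ++ σ.map fa := by
    simp only [pw, flatMap_item_diag, fin, seg_self]
    simp [Function.comp_def]
  have e1 : pw fa fb m [] 0 = ((List.range m).map fb).reverse ++ (List.range m).map fa := by
    simp [pw, fin, seg_zero]
  rw [e0, e1] at h
  exact h

/-- Two copies of a word `σ` on `{0, .., m-1}` anywhere in a word are sorted by `m + 2` moves. -/
theorem pair_far (fa fb : ℕ → α) (m : ℕ) (σ : List ℕ) (hσ : σ.Perm (List.range m))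
    (P Y Z : List α) :
    Reach (m + 2) (P ++ σ.map fa ++ Y ++ σ.map fb ++ Z)
      (P ++ (List.range m).map fa ++ Y ++ (List.range m).map fb ++ Z) := by
  rcases Nat.eq_zero_or_pos m with rfl | hm
  · have : σ = [] := by simpa using hσ
    subst this
    exact (Reach.refl _).mono (by omega)
  have hσ0 : σ ≠ [] := by
    rintro rfl
    have := hσ.length_eq
    simp at this
    omega
  have hr0 : (List.range m) ≠ [] := by
    intro h
    have := congrArg List.length h
    simp at this
    omega
  have m1 : Move (P ++ σ.map fa ++ Y ++ σ.map fb ++ Z)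
      (P ++ ((σ.map fb).reverse ++ σ.map fa) ++ (Y ++ Z)) :=
    ⟨P ++ σ.map fa ++ Y, σ.map fb, Z, P, σ.map fa ++ Y ++ Z, by simpa using hσ0, rfl, by simp,
      Or.inr (by simp)⟩
  have m2 := pair_facing fa fb m σ hσ P (Y ++ Z)
  have m3 : Move (P ++ (((List.range m).map fb).reverse ++ (List.range m).map fa) ++ (Y ++ Z))
      (P ++ (List.range m).map fa ++ Y ++ (List.range m).map fb ++ Z) :=
    ⟨P, ((List.range m).map fb).reverse, (List.range m).map fa ++ (Y ++ Z),
      P ++ (List.range m).map fa ++ Y, Z, by simpa using hr0, by simp, by simp,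
      Or.inr (by simp)⟩
  refine ⟨m + 2, le_rfl, ?_⟩
  rw [show m + 2 = 1 + m + 1 by omega]
  exact steps_trans (steps_trans (steps_one m1) m2) (steps_one m3)

end Pool.Agent.Lib.MP29a61eH
end

section
/-!
# MP_29a61e_co: grouping pieces, sorting many blocks
-/
namespace Pool.Agent.Lib.MP29a61eH

open Pool.Agent.Lib.MP29a61e

variable {α : Type}

/-- Sorting by single insertions. -/
theorem insertion : ∀ (w' w P Z : List α), w.Perm w' →
    Reach w.length (P ++ w ++ Z) (P ++ w' ++ Z)
  | [], w, P, Z, h => by
      have : w = [] := by simpa using h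
      subst this
      exact Reach.refl _
  | a :: w', w, P, Z, h => by
      have ha : a ∈ w := h.symm.subset (by simp)
      obtain ⟨l1, l2, rfl⟩ := List.append_of_mem ha
      have h' : (l1 ++ l2).Perm w' := by
        have h1 : (a :: (l1 ++ l2)).Perm (a :: w') := List.perm_middle.symm.trans h
        exact h1.cons_inv
      have ih := insertion w' (l1 ++ l2) (P ++ [a]) Z h'
      have hm : Move (P ++ (l1 ++ a :: l2) ++ Z) (P ++ [a] ++ (l1 ++ l2) ++ Z) :=
        ⟨P ++ l1, [a], l2 ++ Z, P, l1 ++ l2 ++ Z, by simp, by simp, by simp, Or.inl (by simp)⟩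
      have e1 : P ++ [a] ++ w' ++ Z = P ++ (a :: w') ++ Z := by simp
      have h1 := (Reach.of_move hm).trans ih
      rw [e1] at h1
      exact h1.mono (by simp; omega)

/-- Sorting the pieces of a word by a key. -/
theorem sort_pieces (κ : List α → ℕ) : ∀ (W G : List (List α)), (∀ p ∈ W, p ≠ []) →
    G.Pairwise (fun p q => κ p ≤ κ q) →
    ∃ W' : List (List α), W'.Perm (G ++ W) ∧ W'.Pairwise (fun p q => κ p ≤ κ q) ∧
      Reach W.length (G ++ W).flatten W'.flatten
  | [], G, _, hG => ⟨G, by simp, hG, by simpa using Reach.refl _⟩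
  | p :: W, G, hW, hG => by
      have hins : ∃ G1 G2, G = G1 ++ G2 ∧ (G1 ++ p :: G2).Pairwise (fun p q => κ p ≤ κ q) := by
        clear hW
        induction G with
        | nil => exact ⟨[], [], rfl, by simp⟩
        | cons g G ih =>
          rw [List.pairwise_cons] at hG
          by_cases h : κ p ≤ κ g
          · refine ⟨[], g :: G, rfl, ?_⟩
            rw [List.nil_append, List.pairwise_cons]
            refine ⟨?_, List.pairwise_cons.2 hG⟩
            intro q hq
            rcases List.mem_cons.1 hq with rfl | hq
            · exact h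
            · exact h.trans (hG.1 q hq)
          · obtain ⟨G1, G2, rfl, hs⟩ := ih hG.2
            refine ⟨g :: G1, G2, rfl, ?_⟩
            rw [List.cons_append, List.pairwise_cons]
            refine ⟨?_, hs⟩
            intro q hq
            rcases List.mem_append.1 hq with hq | hq
            · exact hG.1 q (by simp [hq])
            · rcases List.mem_cons.1 hq with rfl | hq
              · omega
              · exact hG.1 q (by simp [hq])
      obtain ⟨G1, G2, rfl, hs⟩ := hins
      obtain ⟨W', hp, hs', hr⟩ := sort_pieces κ W (G1 ++ p :: G2)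
        (fun q hq => hW q (by simp [hq])) hs
      refine ⟨W', ?_, hs', ?_⟩
      · refine hp.trans ?_
        have h1 : (G1 ++ p :: G2 ++ W).Perm (p :: (G1 ++ G2 ++ W)) := by
          simp
        exact h1.trans (List.perm_middle (a := p) (l₁ := G1 ++ G2) (l₂ := W)).symm
      · have hm : Move (G1 ++ G2 ++ p :: W).flatten (G1 ++ p :: G2 ++ W).flatten :=
          ⟨G1.flatten ++ G2.flatten, p, W.flatten, G1.flatten, G2.flatten ++ W.flatten,
            hW p (by simp), by simp, by simp, Or.inl (by simp)⟩
        have := (Reach.of_move hm).trans hr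
        refine this.mono ?_
        simp
        omega

/-- The number of adjacent pairs of different labels. -/
def brk : List ℕ → ℕ
  | [] => 0
  | [_] => 0
  | a :: b :: l => (if a = b then 0 else 1) + brk (b :: l)

/-- Cutting a word into pieces of constant label. -/
theorem exists_pieces (c : α → ℕ) : ∀ w : List α, ∃ W : List (List α), W.flatten = w ∧
    (∀ p ∈ W, p ≠ [] ∧ ∀ x ∈ p, ∀ y ∈ p, c x = c y) ∧ W.length ≤ brk (w.map c) + 1
  | [] => ⟨[], rfl, by simp, by simp⟩
  | [a] => ⟨[[a]], rfl, by simp, by simp⟩
  | a :: b :: l => by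
      obtain ⟨W, hW, hp, hl⟩ := exists_pieces c (b :: l)
      by_cases h : c a = c b
      · cases W with
        | nil => simp at hW
        | cons p W =>
          have hp0 := hp p (by simp)
          cases p with
          | nil => exact absurd rfl hp0.1
          | cons b' p =>
            have hb : b' = b := by
              have := hW
              simp at this
              exact this.1
            subst hb
            refine ⟨(a :: b' :: p) :: W, ?_, ?_, ?_⟩
            · rw [List.flatten_cons] at hW ⊢
              rw [List.cons_append, hW]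
            · intro q hq
              rcases List.mem_cons.1 hq with rfl | hq
              · refine ⟨by simp, ?_⟩
                have key : ∀ x ∈ a :: b' :: p, c x = c b' := by
                  intro x hx
                  rcases List.mem_cons.1 hx with rfl | hx
                  · exact h
                  · exact hp0.2 x hx b' (by simp)
                intro x hx y hy
                rw [key x hx, key y hy]
              · exact hp q (by simp [hq])
            · simpa [brk, h] using hl
      · refine ⟨[a] :: W, by simp [hW], ?_, ?_⟩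
        · intro q hq
          rcases List.mem_cons.1 hq with rfl | hq
          · simp
          · exact hp q hq
        · simp only [List.map_cons, brk, h, if_false] at hl ⊢
          simp only [List.length_cons]
          omega

theorem filter_split (c : α → ℕ) (q : ℕ) : ∀ w : List α, w.Pairwise (fun x y => c x ≤ c y) →
    (∀ x ∈ w, c x < q + 1) → w = w.filter (fun x => c x < q) ++ w.filter (fun x => c x = q)
  | [], _, _ => rfl
  | a :: w, hw, hq => by
      rw [List.pairwise_cons] at hw
      have ih := filter_split c q w hw.2 (fun x hx => hq x (by simp [hx]))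
      by_cases h : c a < q
      · have h' : ¬ c a = q := by omega
        simp only [List.filter_cons, h, h', decide_true, decide_false, if_true,
          Bool.false_eq_true, if_false, List.cons_append]
        rw [← ih]
      · have h' : c a = q := by
          have := hq a (by simp)
          omega
        have h1 : w.filter (fun x => c x < q) = [] := by
          rw [List.filter_eq_nil_iff]
          intro x hx
          have := hw.1 x hx
          simp
          omega
        rw [h1, List.nil_append] at ih
        have h2 : (a :: w).filter (fun x => c x < q) = [] := by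
          rw [List.filter_cons, h1]
          simp [h]
        have h3 : (a :: w).filter (fun x => c x = q) = a :: w.filter (fun x => c x = q) := by
          rw [List.filter_cons]
          simp [h']
        rw [h2, h3, List.nil_append, ← ih]

theorem flatMap_filter (c : α → ℕ) : ∀ (q : ℕ) (w : List α),
    w.Pairwise (fun x y => c x ≤ c y) → (∀ x ∈ w, c x < q) →
    (List.range q).flatMap (fun k => w.filter (fun x => c x = k)) = w
  | 0, w, _, hq => by
      cases w with
      | nil => rfl
      | cons a w => exact absurd (hq a (by simp)) (by omega)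
  | q + 1, w, hw, hq => by
      have h1 := filter_split c q w hw hq
      have ih := flatMap_filter c q (w.filter (fun x => c x < q)) (hw.filter _)
        (by intro x hx; simpa using (List.mem_filter.1 hx).2)
      rw [List.range_succ, List.flatMap_append]
      conv_rhs => rw [h1]
      congr 1
      · rw [← ih]
        have : ∀ k ∈ List.range q, w.filter (fun x => c x = k) =
            ((w.filter (fun x => c x < q)).filter (fun x => c x = k)) := by
          intro k hk
          rw [List.filter_filter]
          congr 1
          funext x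
          have hk' := List.mem_range.1 hk
          by_cases hx : c x = k
          · simp [hx, hk']
          · simp [hx]
        rw [List.flatMap_def, List.flatMap_def]
        congr 1
        exact List.map_congr_left this
      · simp

end Pool.Agent.Lib.MP29a61eH
end

section
/-!
# MP_29a61e_co: sorting many blocks, two equal patterns at a time
-/
namespace Pool.Agent.Lib.MP29a61eH

open Pool.Agent.Lib.MP29a61e

variable {α : Type}

/-- The patterns of length at most `m`. -/
def pats (m : ℕ) : Finset (List ℕ) :=
  (Finset.range (m + 1)).biUnion (fun l => (List.range l).permutations.toFinset)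

theorem mem_pats {m : ℕ} {σ : List ℕ} (h : σ.Perm (List.range σ.length)) (hl : σ.length ≤ m) :
    σ ∈ pats m := by
  unfold pats
  rw [Finset.mem_biUnion]
  refine ⟨σ.length, by simpa using Nat.lt_succ_of_le hl, ?_⟩
  rw [List.mem_toFinset, List.mem_permutations]
  exact h

/-- The word of a list of blocks. -/
def wd (S : List ((ℕ → α) × List ℕ)) : List α := S.flatMap (fun p => p.2.map p.1)

/-- The sorted word of a list of blocks. -/
def tg (S : List ((ℕ → α) × List ℕ)) : List α :=
  S.flatMap (fun p => (List.range p.2.length).map p.1)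

/-- The block is not sorted. -/
def uns (p : (ℕ → α) × List ℕ) : Bool := decide (p.2 ≠ List.range p.2.length)

/-- The cost of the blocks that are not sorted (twice). -/
def cost (S : List ((ℕ → α) × List ℕ)) : ℕ := ((S.filter uns).map (fun p => p.2.length + 2)).sum

theorem wd_append (S T : List ((ℕ → α) × List ℕ)) : wd (S ++ T) = wd S ++ wd T := by
  simp [wd]

theorem tg_append (S T : List ((ℕ → α) × List ℕ)) : tg (S ++ T) = tg S ++ tg T := by
  simp [tg]

theorem wd_cons (p : (ℕ → α) × List ℕ) (S : List ((ℕ → α) × List ℕ)) :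
    wd (p :: S) = p.2.map p.1 ++ wd S := by
  simp [wd]

theorem tg_cons (p : (ℕ → α) × List ℕ) (S : List ((ℕ → α) × List ℕ)) :
    tg (p :: S) = (List.range p.2.length).map p.1 ++ tg S := by
  simp [tg]

theorem single : ∀ (S : List ((ℕ → α) × List ℕ)) (P : List α),
    (∀ p ∈ S, p.2.Perm (List.range p.2.length)) →
    Reach (((S.filter uns).map (fun p => p.2.length)).sum) (P ++ wd S) (P ++ tg S)
  | [], P, _ => by
      simpa [wd, tg] using Reach.refl P
  | p :: S, P, h => by
      have ih := single S (P ++ (List.range p.2.length).map p.1) (fun q hq => h q (by simp [hq]))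
      rw [wd_cons, tg_cons, ← List.append_assoc, ← List.append_assoc]
      by_cases hu : p.2 = List.range p.2.length
      · have hf : (p :: S).filter uns = S.filter uns := by
          rw [List.filter_cons]
          simp only [uns, hu.symm, ne_eq, not_true_eq_false, decide_false, Bool.false_eq_true,
            if_false]
        rw [hf]
        rw [← hu] at ih ⊢
        exact ih
      · have hf : (p :: S).filter uns = p :: S.filter uns := by
          rw [List.filter_cons]
          simp [uns, hu]
        rw [hf, List.map_cons, List.sum_cons]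
        have h1 := insertion ((List.range p.2.length).map p.1) (p.2.map p.1) P (wd S)
          ((h p (by simp)).map _)
        rw [List.length_map] at h1
        exact h1.trans ih

theorem many (m : ℕ) : ∀ (N : ℕ) (S : List ((ℕ → α) × List ℕ)), (S.filter uns).length ≤ N →
    (∀ p ∈ S, p.2.Perm (List.range p.2.length) ∧ p.2.length ≤ m) →
    ∃ k, 2 * k ≤ cost S + 2 * ((pats m).card * m) ∧ Steps k (wd S) (tg S) := by
  intro N
  induction N using Nat.strong_induction_on with
  | _ N IH =>
    intro S hN hS
    by_cases hnd : ((S.filter uns).map Prod.snd).Nodup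
    · have h1 : (S.filter uns).length ≤ (pats m).card := by
        have h2 : ((S.filter uns).map Prod.snd).toFinset ⊆ pats m := by
          intro σ hσ
          rw [List.mem_toFinset, List.mem_map] at hσ
          obtain ⟨p, hp, rfl⟩ := hσ
          have := hS p (List.mem_filter.1 hp).1
          exact mem_pats this.1 this.2
        have h3 := Finset.card_le_card h2
        rw [List.toFinset_card_of_nodup hnd, List.length_map] at h3
        exact h3
      obtain ⟨k, hk, h⟩ := single S [] (fun p hp => (hS p hp).1)
      refine ⟨k, ?_, by simpa using h⟩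
      have h4 : ((S.filter uns).map (fun p => p.2.length)).sum ≤ (S.filter uns).length * m := by
        have : ∀ T : List ((ℕ → α) × List ℕ), (∀ p ∈ T, p.2.length ≤ m) →
            (T.map (fun p => p.2.length)).sum ≤ T.length * m := by
          intro T hT
          induction T with
          | nil => simp
          | cons p T ih =>
            rw [List.map_cons, List.sum_cons, List.length_cons, Nat.add_mul, one_mul]
            have a := hT p (by simp)
            have b := ih (fun q hq => hT q (by simp [hq]))
            omega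
        exact this _ (fun p hp => (hS p (List.mem_filter.1 hp).1).2)
      have h5 : (S.filter uns).length * m ≤ (pats m).card * m := Nat.mul_le_mul_right _ h1
      omega
    · rw [List.nodup_iff_sublist] at hnd
      push Not at hnd
      obtain ⟨σ, hσ⟩ := hnd
      rw [List.sublist_map_iff] at hσ
      obtain ⟨l', hl', he⟩ := hσ
      obtain ⟨p, q, rfl, hpσ, hqσ⟩ : ∃ p q, l' = [p, q] ∧ p.2 = σ ∧ q.2 = σ := by
        have hlen : l'.length = 2 := by simpa using (congrArg List.length he).symm
        obtain ⟨p, q, rfl⟩ := List.length_eq_two.1 hlen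
        simp at he
        exact ⟨p, q, rfl, he.1.symm, he.2.symm⟩
      have hpu : uns p = true := (List.mem_filter.1 (hl'.subset (by simp : p ∈ [p, q]))).2
      have hqu : uns q = true := (List.mem_filter.1 (hl'.subset (by simp : q ∈ [p, q]))).2
      have hsub : [p, q].Sublist S := hl'.trans List.filter_sublist
      rw [List.cons_sublist_iff] at hsub
      obtain ⟨r1, r2, rfl, hp1, hq1⟩ := hsub
      rw [List.singleton_sublist] at hq1
      obtain ⟨A, B, rfl⟩ := List.append_of_mem hp1
      obtain ⟨C, D, rfl⟩ := List.append_of_mem hq1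
      obtain ⟨f, σ1⟩ := p
      obtain ⟨g, σ2⟩ := q
      simp only at hpσ hqσ
      subst hpσ
      subst hqσ
      have hσm := hS (f, σ2) (by simp)
      simp only at hσm
      have hl1 : (List.range σ2.length).length = σ2.length := by simp
      have hu1 : ∀ h : ℕ → α, uns (h, List.range σ2.length) = false := by
        intro h
        simp [uns]
      have hu2 : ∀ h : ℕ → α, uns (h, σ2) = true := by
        intro h
        have := hpu
        simpa [uns] using this
      have hr := pair_far f g σ2.length σ2 hσm.1 (wd A) (wd B ++ wd C) (wd D)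
      have e1 : wd (A ++ (f, σ2) :: B ++ (C ++ (g, σ2) :: D)) =
          wd A ++ σ2.map f ++ (wd B ++ wd C) ++ σ2.map g ++ wd D := by
        simp [wd_append, wd_cons]
      have e2 : wd (A ++ (f, List.range σ2.length) :: B ++ (C ++ (g, List.range σ2.length) :: D)) =
          wd A ++ (List.range σ2.length).map f ++ (wd B ++ wd C) ++
            (List.range σ2.length).map g ++ wd D := by
        simp [wd_append, wd_cons]
      have e3 : tg (A ++ (f, List.range σ2.length) :: B ++ (C ++ (g, List.range σ2.length) :: D)) =
          tg (A ++ (f, σ2) :: B ++ (C ++ (g, σ2) :: D)) := by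
        simp [tg_append, tg_cons]
      have e4 : cost (A ++ (f, σ2) :: B ++ (C ++ (g, σ2) :: D)) =
          cost (A ++ (f, List.range σ2.length) :: B ++ (C ++ (g, List.range σ2.length) :: D)) +
            2 * (σ2.length + 2) := by
        simp only [cost, List.filter_append, List.filter_cons, hu1, hu2, if_true,
          Bool.false_eq_true, if_false, List.map_append, List.map_cons, List.sum_append,
          List.sum_cons]
        omega
      have e5 : ((A ++ (f, List.range σ2.length) :: B ++
          (C ++ (g, List.range σ2.length) :: D)).filter uns).length < N := by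
        have : ((A ++ (f, σ2) :: B ++ (C ++ (g, σ2) :: D)).filter uns).length =
            ((A ++ (f, List.range σ2.length) :: B ++
              (C ++ (g, List.range σ2.length) :: D)).filter uns).length + 2 := by
          simp only [List.filter_append, List.filter_cons, hu1, hu2, if_true,
            Bool.false_eq_true, if_false, List.length_append, List.length_cons]
          omega
        omega
      obtain ⟨k, hk, h⟩ := IH _ e5 (A ++ (f, List.range σ2.length) :: B ++
          (C ++ (g, List.range σ2.length) :: D)) le_rfl (by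
            intro p hp
            have hor : p ∈ A ++ (f, σ2) :: B ++ (C ++ (g, σ2) :: D) ∨
                p = (f, List.range σ2.length) ∨ p = (g, List.range σ2.length) := by
              simp only [List.mem_append, List.mem_cons] at hp ⊢
              tauto
            rcases hor with h | h | h
            · exact hS p h
            · subst h
              simpa using hσm.2
            · subst h
              simpa using hσm.2)
      obtain ⟨k', hk', h'⟩ := hr
      refine ⟨k' + k, by omega, ?_⟩
      rw [e1]
      rw [e3, e2] at h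
      exact steps_trans h' h

end Pool.Agent.Lib.MP29a61eH
end

section
/-!
# MP_29a61e_co: the bound for words with small classes
-/
namespace Pool.Agent.Lib.MP29a61eH

open Pool.Agent.Lib.MP29a61e

variable {α : Type}

theorem card_le_brk : ∀ l : List ℕ, l.toFinset.card ≤ brk l + 1
  | [] => by simp
  | [a] => by simp
  | a :: b :: l => by
      have ih := card_le_brk (b :: l)
      by_cases h : a = b
      · subst h
        have : (a :: a :: l).toFinset = (a :: l).toFinset := by simp
        rw [this]
        simpa [brk] using ih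
      · rw [List.toFinset_cons]
        have h1 := Finset.card_insert_le a (b :: l).toFinset
        simp only [brk, h, if_false]
        omega

theorem group (c : α → ℕ) (w : List α) : ∃ w1 : List α, w1.Perm w ∧
    w1.Pairwise (fun x y => c x ≤ c y) ∧ Reach (brk (w.map c) + 1) w w1 := by
  obtain ⟨W, hW, hp, hl⟩ := exists_pieces c w
  obtain ⟨W', hperm, hs, hr⟩ := sort_pieces (fun p => (p.head?.map c).getD 0) W []
    (fun p hp' => (hp p hp').1) List.Pairwise.nil
  rw [List.nil_append] at hperm hr
  have key : ∀ p ∈ W', ∀ x ∈ p, c x = (p.head?.map c).getD 0 := by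
    intro p hp' x hx
    have hpW := hp p (hperm.subset hp')
    cases p with
    | nil => simp at hx
    | cons a p => simpa using hpW.2 x hx a (by simp)
  refine ⟨W'.flatten, ?_, ?_, ?_⟩
  · rw [← hW]
    exact hperm.flatten
  · rw [List.pairwise_flatten]
    constructor
    · intro p hp'
      rw [List.pairwise_iff_forall_sublist]
      intro a b hab
      have ha := key p hp' a (hab.subset (by simp))
      have hb := key p hp' b (hab.subset (by simp))
      rw [ha, hb]
    · refine hs.imp_of_mem ?_
      intro p q hp' hq' h x hx y hy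
      rw [key p hp' x hx, key q hq' y hy]
      exact h
  · rw [hW] at hr
    exact hr.mono hl

theorem cost_le : ∀ S : List ((ℕ → α) × List ℕ), cost S ≤
    (S.map (fun p => p.2.length)).sum + 2 * (S.map (fun p => if p.2 = [] then 0 else 1)).sum
  | [] => by simp [cost]
  | p :: S => by
      have ih := cost_le S
      unfold cost at ih ⊢
      by_cases h : uns p = true
      · have h0 : p.2 ≠ [] := by
          intro h0
          simp [uns, h0] at h
        rw [List.filter_cons, if_pos h]
        simp only [List.map_cons, List.sum_cons, h0, if_false]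
        omega
      · rw [List.filter_cons, if_neg h]
        simp only [List.map_cons, List.sum_cons]
        omega

theorem sum_map_range (f : ℕ → ℕ) (q : ℕ) :
    ((List.range q).map f).sum = ∑ k ∈ Finset.range q, f k := by
  induction q with
  | zero => simp
  | succ q ih => rw [List.range_succ, List.map_append, List.sum_append, ih,
      Finset.sum_range_succ]; simp

theorem idx_perm [DecidableEq α] (v u : List α) (h : v.Perm u) (hu : u.Nodup) :
    (v.map (fun x => u.idxOf x)).Perm (List.range u.length) := by
  have h1 : u.map (fun x => u.idxOf x) = List.range u.length := by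
    apply List.ext_getElem
    · simp
    · intro i h1 h2
      simp only [List.getElem_map, List.getElem_range]
      exact hu.idxOf_getElem i (by simpa using h1)
  rw [← h1]
  exact h.map _

theorem hyper [Inhabited α] [DecidableEq α] (m : ℕ) (c : α → ℕ) (w w' : List α)
    (hp : w.Perm w') (hnd : w.Nodup) (hm : ∀ k, (w.filter (fun x => c x = k)).length ≤ m) :
    ∃ k, 2 * k ≤ w.length + 4 * (brk (w.map c) + 1) + 2 * (brk (w'.map c) + 1) +
      2 * ((pats m).card * m) ∧ Steps k w w' := by
  obtain ⟨w1, hp1, hs1, hr1⟩ := group c w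
  obtain ⟨w2, hp2, hs2, hr2⟩ := group c w'
  have hp12 : w1.Perm w2 := hp1.trans (hp.trans hp2.symm)
  have hnd2 : w2.Nodup := hp12.nodup_iff.1 (hp1.nodup_iff.2 hnd)
  obtain ⟨q, hq⟩ : ∃ q, ∀ x ∈ w1, c x < q :=
    ⟨(w1.map c).toFinset.sup id + 1, fun x hx => Nat.lt_succ_of_le
      (Finset.le_sup (f := id) (by
        rw [List.mem_toFinset]
        exact List.mem_map_of_mem hx))⟩
  have hq2 : ∀ x ∈ w2, c x < q := fun x hx => hq x (hp12.symm.subset hx)
  let v : ℕ → List α := fun k => w1.filter (fun x => c x = k)
  let u : ℕ → List α := fun k => w2.filter (fun x => c x = k)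
  have hvu : ∀ k, (v k).Perm (u k) := fun k => hp12.filter _
  have hlen : ∀ k, (v k).length = (u k).length := fun k => (hvu k).length_eq
  let e : ℕ → (ℕ → α) × List ℕ := fun k =>
    (fun i => (u k).getD i default, (v k).map (fun x => (u k).idxOf x))
  let S : List ((ℕ → α) × List ℕ) := (List.range q).map e
  have hwd : wd S = w1 := by
    have h1 : wd S = (List.range q).flatMap v := by
      simp only [wd, S, List.flatMap_map]
      rw [List.flatMap_def, List.flatMap_def]
      congr 1
      refine List.map_congr_left ?_
      intro k _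
      simp only [e, List.map_map]
      conv_rhs => rw [← List.map_id (v k)]
      refine List.map_congr_left ?_
      intro x hx
      have hx' : x ∈ u k := (hvu k).subset hx
      have h2 : (u k).idxOf x < (u k).length := List.idxOf_lt_length_iff.2 hx'
      simp only [Function.comp_apply, id]
      rw [List.getD_eq_getElem _ _ h2]
      exact List.getElem_idxOf h2
    rw [h1]
    exact flatMap_filter c q w1 hs1 hq
  have htg : tg S = w2 := by
    have h1 : tg S = (List.range q).flatMap u := by
      simp only [tg, S, List.flatMap_map]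
      rw [List.flatMap_def, List.flatMap_def]
      congr 1
      refine List.map_congr_left ?_
      intro k _
      simp only [e, List.length_map, hlen]
      apply List.ext_getElem
      · simp
      · intro i h1 h2
        simp [List.getElem?_eq_getElem h2]
    rw [h1]
    exact flatMap_filter c q w2 hs2 hq2
  have hval : ∀ p ∈ S, p.2.Perm (List.range p.2.length) ∧ p.2.length ≤ m := by
    intro p hpS
    obtain ⟨k, _, rfl⟩ := List.mem_map.1 hpS
    have h1 := idx_perm (v k) (u k) (hvu k) (hnd2.filter _)
    simp only [e, List.length_map]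
    refine ⟨by rw [hlen k]; exact h1, ?_⟩
    have h2 : (v k).length = (w.filter (fun x => c x = k)).length :=
      (hp1.filter _).length_eq
    rw [h2]
    exact hm k
  obtain ⟨k, hk, hst⟩ := many m _ S le_rfl hval
  rw [hwd, htg] at hst
  have hc := cost_le S
  have hs : (S.map (fun p => p.2.length)).sum = w.length := by
    have h1 : (S.map (fun p => p.2.length)).sum = w1.length := by
      conv_rhs => rw [← flatMap_filter c q w1 hs1 hq]
      rw [List.length_flatMap]
      simp [S, e, v, Function.comp_def]
    rw [h1, hp1.length_eq]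
  have hs' : (S.map (fun p => if p.2 = [] then 0 else 1)).sum ≤ brk (w.map c) + 1 := by
    refine le_trans ?_ (card_le_brk (w.map c))
    have h1 : (S.map (fun p => if p.2 = [] then 0 else 1)).sum =
        ∑ k ∈ Finset.range q, if v k = [] then 0 else 1 := by
      rw [← sum_map_range]
      simp only [S, List.map_map]
      congr 1
      refine List.map_congr_left ?_
      intro k _
      simp [e]
    rw [h1]
    have h2 : (∑ k ∈ Finset.range q, if v k = [] then 0 else 1) =
        ((Finset.range q).filter (fun k => v k ≠ [])).card := by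
      rw [Finset.card_filter]
      refine Finset.sum_congr rfl ?_
      intro k _
      by_cases h : v k = [] <;> simp [h]
    rw [h2]
    refine Finset.card_le_card ?_
    intro k hk
    rw [Finset.mem_filter] at hk
    obtain ⟨x, hx⟩ := List.exists_mem_of_ne_nil _ hk.2
    have hx' := List.mem_filter.1 hx
    rw [List.mem_toFinset, List.mem_map]
    exact ⟨x, hp1.subset hx'.1, by simpa using hx'.2⟩
  obtain ⟨k1, hk1, hst1⟩ := hr1
  obtain ⟨k2, hk2, hst2⟩ := hr2.symm
  refine ⟨k1 + k + k2, by omega, steps_trans (steps_trans hst1 hst) hst2⟩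

end Pool.Agent.Lib.MP29a61eH
end

section
/-!
# MP_29a61e_co: upper bounds for permutations
-/
namespace Pool.Agent.Lib.MP29a61eH

open Pool.Agent.Lib.MP29a61e

/-- The number of indices `i` such that `i + 1 < n` and `g (i + 1) ≠ g i`. -/
def jumps {n : ℕ} (g : Fin n → ℕ) : ℕ :=
  (Finset.univ.filter (fun i : Fin n => ∃ j : Fin n, (j : ℕ) = i + 1 ∧ g j ≠ g i)).card

theorem brk_ofFn : ∀ {n : ℕ} (g : Fin n → ℕ), brk (List.ofFn g) ≤ jumps g
  | 0, g => by simp [brk]
  | 1, g => by simp [brk]
  | n + 2, g => by
      have ih := brk_ofFn (fun i : Fin (n + 1) => g i.succ)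
      have h1 : List.ofFn g = g 0 :: g 1 :: List.ofFn (fun i : Fin n => g i.succ.succ) := by
        rw [List.ofFn_succ, List.ofFn_succ]
        rfl
      have h2 : List.ofFn (fun i : Fin (n + 1) => g i.succ) =
          g 1 :: List.ofFn (fun i : Fin n => g i.succ.succ) := by
        rw [List.ofFn_succ]
        rfl
      rw [h1]
      rw [h2] at ih
      have h3 : jumps g = (if g 1 ≠ g 0 then 1 else 0) +
          jumps (fun i : Fin (n + 1) => g i.succ) := by
        unfold jumps
        rw [Fin.card_filter_univ_succ]
        have e1 : (∃ j : Fin (n + 2), (j : ℕ) = (0 : Fin (n + 2)) + 1 ∧ g j ≠ g 0) ↔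
            g 1 ≠ g 0 := by
          constructor
          · rintro ⟨j, hj, h⟩
            have : j = 1 := by
              apply Fin.ext
              simpa using hj
            rwa [this] at h
          · intro h
            exact ⟨1, by simp, h⟩
        have e2 : ∀ x : Fin (n + 1),
            (∃ j : Fin (n + 2), (j : ℕ) = (x.succ : Fin (n + 2)) + 1 ∧ g j ≠ g x.succ) ↔
            (∃ j : Fin (n + 1), (j : ℕ) = x + 1 ∧ g j.succ ≠ g x.succ) := by
          intro x
          constructor
          · rintro ⟨j, hj, h⟩
            have h0' : j ≠ 0 := by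
              intro h0
              rw [h0] at hj
              simp at hj
            obtain ⟨i, rfl⟩ : ∃ i : Fin (n + 1), j = i.succ :=
              ⟨j.pred h0', (Fin.succ_pred j h0').symm⟩
            refine ⟨i, ?_, h⟩
            rw [Fin.val_succ, Fin.val_succ] at hj
            omega
          · rintro ⟨j, hj, h⟩
            refine ⟨j.succ, ?_, h⟩
            simp
            omega
        simp only [e1, e2]
        split_ifs <;> omega
      rw [h3]
      simp only [brk]
      by_cases h : g 0 = g 1
      · rw [if_pos h, if_neg (by simp [h])]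
        omega
      · rw [if_neg h, if_pos (fun h' => h h'.symm)]
        omega

theorem sortDist_le {n k : ℕ} {π : Equiv.Perm (Fin n)}
    (h : Steps k (List.ofFn π) (List.finRange n)) : sortDist π ≤ k := Nat.sInf_le h

theorem ofFn_perm {n : ℕ} (π : Equiv.Perm (Fin n)) : (List.ofFn π).Perm (List.finRange n) := by
  have h := Equiv.Perm.ofFn_comp_perm π (id : Fin n → Fin n)
  have e : List.ofFn (id : Fin n → Fin n) = List.finRange n := by
    rw [List.ofFn_eq_map]
    simp
  rw [e] at h
  exact h

theorem length_filter {n : ℕ} (p : Fin n → Prop) [DecidablePred p] :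
    ((List.finRange n).filter (fun x => p x)).length = (Finset.univ.filter p).card := by
  have h1 : ((List.finRange n).filter (fun x => p x)).Nodup := (List.nodup_finRange n).filter _
  rw [← List.toFinset_card_of_nodup h1]
  congr 1
  ext x
  simp

/-- The bound for permutations with small classes. -/
theorem sortDist_hyper (m : ℕ) : ∃ C : ℕ, ∀ (n : ℕ) (π : Equiv.Perm (Fin n)) (c : Fin n → ℕ),
    (∀ k, (Finset.univ.filter (fun x => c x = k)).card ≤ m) →
    2 * sortDist π ≤ n + 4 * jumps (fun i => c (π i)) + 2 * jumps c + C := by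
  refine ⟨6 + 2 * ((pats m).card * m), ?_⟩
  intro n π c hc
  rcases Nat.eq_zero_or_pos n with rfl | hn
  · have : sortDist π ≤ 0 := sortDist_le (by simp [Steps])
    omega
  have : Inhabited (Fin n) := ⟨⟨0, hn⟩⟩
  have hperm := ofFn_perm π
  obtain ⟨k, hk, h⟩ := hyper m c (List.ofFn π) (List.finRange n) hperm
    (hperm.nodup_iff.2 (List.nodup_finRange n)) (by
      intro k
      rw [(hperm.filter _).length_eq, length_filter]
      exact hc k)
  have h1 := sortDist_le h
  have h2 : (List.ofFn π).map c = List.ofFn (fun i => c (π i)) := by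
    rw [List.map_ofFn]
    rfl
  have h3 : (List.finRange n).map c = List.ofFn c := by
    rw [List.ofFn_eq_map]
  rw [h2, h3, List.length_ofFn] at hk
  have h4 := brk_ofFn (fun i => c (π i))
  have h5 := brk_ofFn c
  omega

/-- Hermite's identity. -/
theorem hermite (m : ℕ) (hm : 0 < m) : ∀ x : ℕ, ∑ s ∈ Finset.range m, (x + s) / m = x
  | 0 => by
      apply Finset.sum_eq_zero
      intro s hs
      rw [zero_add]
      exact Nat.div_eq_of_lt (Finset.mem_range.1 hs)
  | x + 1 => by
      have ih := hermite m hm x
      have h1 : ∑ s ∈ Finset.range m, (x + 1 + s) / m + x / m =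
          ∑ s ∈ Finset.range m, (x + s) / m + (x + m) / m := by
        have h2 := Finset.sum_range_succ (fun s => (x + s) / m) m
        have h3 := Finset.sum_range_succ' (fun s => (x + s) / m) m
        have h4 : ∑ s ∈ Finset.range m, (x + 1 + s) / m =
            ∑ s ∈ Finset.range m, (x + (s + 1)) / m := by
          refine Finset.sum_congr rfl ?_
          intro s _
          rw [show x + 1 + s = x + (s + 1) by omega]
        rw [h4]
        simp only [add_zero] at h3
        omega
      rw [Nat.add_div_right _ hm] at h1
      omega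

theorem count_diff (m : ℕ) (hm : 0 < m) (a b : ℕ) :
    (((Finset.range m).filter (fun s => (a + s) / m ≠ (b + s) / m)).card : ℤ) ≤
      |(a : ℤ) - b| := by
  wlog hab : a ≤ b generalizing a b with H
  · have h := H b a (by omega)
    rw [abs_sub_comm] at h
    refine le_trans (le_of_eq ?_) h
    congr 2
    ext s
    simp only [Finset.mem_filter, ne_eq, and_congr_right_iff]
    intro _
    exact not_congr eq_comm
  have h1 : ((Finset.range m).filter (fun s => (a + s) / m ≠ (b + s) / m)).card + a ≤ b := by
    rw [Finset.card_filter]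
    have ha := hermite m hm a
    have hb := hermite m hm b
    have h2 : ∑ s ∈ Finset.range m, (if (a + s) / m ≠ (b + s) / m then 1 else 0) +
          ∑ s ∈ Finset.range m, (a + s) / m ≤ ∑ s ∈ Finset.range m, (b + s) / m := by
      rw [← Finset.sum_add_distrib]
      refine Finset.sum_le_sum ?_
      intro s _
      have h := Nat.div_le_div_right (c := m) (show a + s ≤ b + s by omega)
      split_ifs with h'
      · omega
      · omega
    omega
  rw [abs_sub_comm, abs_of_nonneg (by omega)]
  omega

theorem count_change (m n s : ℕ) (hm : 0 < m) (hs : s < m) :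
    ((Finset.range n).filter (fun i => (i + s) / m ≠ (i + 1 + s) / m)).card ≤ n / m + 1 := by
  have key : ∀ n : ℕ,
      ((Finset.range n).filter (fun i => (i + s) / m ≠ (i + 1 + s) / m)).card ≤ (n + s) / m := by
    intro n
    induction n with
    | zero => simp
    | succ n ih =>
      rw [Finset.range_add_one, Finset.filter_insert]
      have h := Nat.div_le_div_right (c := m) (show n + s ≤ n + 1 + s by omega)
      split_ifs with h'
      · refine (Finset.card_insert_le _ _).trans ?_
        omega
      · omega
  refine (key n).trans ?_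
  calc (n + s) / m ≤ (n + m) / m := Nat.div_le_div_right (by omega)
    _ = n / m + 1 := Nat.add_div_right _ hm

/-- Few misplaced letters give small classes with few changes of class. -/
theorem sortDist_windows (m s : ℕ) (hm : 0 < m) (hs : s < m) (C : ℕ)
    (hC : ∀ (n : ℕ) (π : Equiv.Perm (Fin n)) (c : Fin n → ℕ),
      (∀ k, (Finset.univ.filter (fun x => c x = k)).card ≤ m) →
      2 * sortDist π ≤ n + 4 * jumps (fun i => c (π i)) + 2 * jumps c + C)
    (n : ℕ) (π : Equiv.Perm (Fin n)) :
    2 * sortDist π ≤ n + 6 * (n / m + 1) +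
      12 * (Finset.univ.filter (fun i : Fin n =>
        ((i : ℕ) + s) / m ≠ (((π i : Fin n) : ℕ) + s) / m)).card + C := by
  classical
  let c : Fin n → ℕ := fun x =>
    if ((π.symm x : ℕ) + s) / m = ((x : ℕ) + s) / m then 2 * (((x : ℕ) + s) / m)
    else 2 * (x : ℕ) + 1
  let bad : Finset (Fin n) := Finset.univ.filter (fun i : Fin n =>
        ((i : ℕ) + s) / m ≠ (((π i : Fin n) : ℕ) + s) / m)
  have hc1 : ∀ i : Fin n, i ∉ bad → c (π i) = 2 * (((i : ℕ) + s) / m) := by
    intro i hi
    simp only [bad, Finset.mem_filter, Finset.mem_univ, true_and, not_not] at hi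
    simp only [c, Equiv.symm_apply_apply]
    rw [if_pos hi, hi]
  have hc2 : ∀ x : Fin n, π.symm x ∉ bad → c x = 2 * (((x : ℕ) + s) / m) := by
    intro x hx
    have h := hc1 _ hx
    rw [Equiv.apply_symm_apply] at h
    simp only [bad, Finset.mem_filter, Finset.mem_univ, true_and, not_not,
      Equiv.apply_symm_apply] at hx
    rw [h, hx]
  have hfib : ∀ k, (Finset.univ.filter (fun x => c x = k)).card ≤ m := by
    intro k
    rcases Nat.even_or_odd' k with ⟨j, rfl | rfl⟩
    · have h1 : (Finset.univ.filter (fun x => c x = 2 * j)).card ≤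
          (Finset.Ico (j * m - s) ((j + 1) * m - s)).card := by
        refine Finset.card_le_card_of_injOn (fun x : Fin n => (x : ℕ)) ?_
          (fun x _ y _ h => Fin.ext h)
        intro x hx
        have hx' : c x = 2 * j := by simpa using hx
        have h2 : ((x : ℕ) + s) / m = j := by
          simp only [c] at hx'
          split_ifs at hx' with h
          · omega
          · omega
        have h3 := (Nat.div_eq_iff hm).1 h2
        simp only [Finset.coe_Ico, Set.mem_Ico]
        have h4 : (j + 1) * m = j * m + m := by ring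
        rw [h4]
        omega
      refine h1.trans ?_
      rw [Nat.card_Ico]
      have h4 : (j + 1) * m = j * m + m := by ring
      rw [h4]
      omega
    · refine le_trans ?_ hm
      rw [Finset.card_le_one]
      intro x hx y hy
      have hx' : c x = 2 * j + 1 := by simpa using hx
      have hy' : c y = 2 * j + 1 := by simpa using hy
      apply Fin.ext
      simp only [c] at hx' hy'
      split_ifs at hx' hy' with h1 h2 h2
      · omega
      · omega
      · omega
      · omega
  have hjump : ∀ (g : Fin n → ℕ) (B : Finset (Fin n)),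
      (∀ i : Fin n, i ∉ B → g i = 2 * (((i : ℕ) + s) / m)) →
      jumps g ≤ n / m + 1 + 2 * B.card := by
    intro g B hg
    have hsub : (Finset.univ.filter (fun i : Fin n => ∃ j : Fin n, (j : ℕ) = i + 1 ∧ g j ≠ g i)) ⊆
        (Finset.univ.filter (fun i : Fin n => ((i : ℕ) + s) / m ≠ ((i : ℕ) + 1 + s) / m)) ∪ B ∪
        (Finset.univ.filter (fun i : Fin n => ∃ j ∈ B, (j : ℕ) = i + 1)) := by
      intro i hi
      simp only [Finset.mem_filter, Finset.mem_univ, true_and] at hi
      obtain ⟨j, hj, hne⟩ := hi
      simp only [Finset.mem_union, Finset.mem_filter, Finset.mem_univ, true_and]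
      by_contra hcon
      push Not at hcon
      obtain ⟨⟨h1, h2⟩, h3⟩ := hcon
      have h4 : j ∉ B := fun h => h3 j h hj
      rw [hg i h2, hg j h4, hj, h1] at hne
      exact hne rfl
    have h1 := Finset.card_le_card hsub
    have h2 := Finset.card_union_le
      ((Finset.univ.filter (fun i : Fin n => ((i : ℕ) + s) / m ≠ ((i : ℕ) + 1 + s) / m)) ∪ B)
      (Finset.univ.filter (fun i : Fin n => ∃ j ∈ B, (j : ℕ) = i + 1))
    have h3 := Finset.card_union_le
      (Finset.univ.filter (fun i : Fin n => ((i : ℕ) + s) / m ≠ ((i : ℕ) + 1 + s) / m)) B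
    have h4 : (Finset.univ.filter (fun i : Fin n => ∃ j ∈ B, (j : ℕ) = i + 1)).card ≤ B.card := by
      have h5 : ((Finset.univ.filter (fun i : Fin n => ∃ j ∈ B, (j : ℕ) = i + 1)).image
          (fun i : Fin n => (i : ℕ) + 1)) ⊆ B.image (fun j : Fin n => (j : ℕ)) := by
        intro y hy
        rw [Finset.mem_image] at hy
        obtain ⟨i, hi, rfl⟩ := hy
        simp only [Finset.mem_filter, Finset.mem_univ, true_and] at hi
        obtain ⟨j, hjB, hj⟩ := hi
        rw [Finset.mem_image]
        exact ⟨j, hjB, hj⟩
      have h6 := Finset.card_le_card h5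
      rw [Finset.card_image_of_injective _ (by
        intro a b h
        apply Fin.ext
        simpa using h)] at h6
      exact h6.trans Finset.card_image_le
    have h5 : (Finset.univ.filter (fun i : Fin n =>
        ((i : ℕ) + s) / m ≠ ((i : ℕ) + 1 + s) / m)).card ≤ n / m + 1 := by
      refine le_trans ?_ (count_change m n s hm hs)
      refine Finset.card_le_card_of_injOn (fun i : Fin n => (i : ℕ)) ?_
        (fun x _ y _ h => Fin.ext h)
      intro i hi
      simp only [Finset.coe_filter, Finset.mem_univ, true_and, Set.mem_ofPred_eq] at hi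
      simp only [Finset.coe_filter, Finset.mem_range, Set.mem_ofPred_eq]
      exact ⟨i.isLt, hi⟩
    unfold jumps
    omega
  have hA := hjump (fun i => c (π i)) bad hc1
  have hB := hjump c (bad.map π.toEmbedding) (by
    intro x hx
    apply hc2
    intro h
    apply hx
    rw [Finset.mem_map]
    exact ⟨π.symm x, h, by simp⟩)
  rw [Finset.card_map] at hB
  have h := hC n π c hfib
  have e : bad.card = (Finset.univ.filter (fun i : Fin n =>
        ((i : ℕ) + s) / m ≠ (((π i : Fin n) : ℕ) + s) / m)).card := rfl
  omega

/-- Averaging over the position of the windows. -/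
theorem exists_offset (m : ℕ) (hm : 0 < m) (n : ℕ) (π : Equiv.Perm (Fin n)) :
    ∃ s < m, ((m : ℤ) * (Finset.univ.filter (fun i : Fin n =>
        ((i : ℕ) + s) / m ≠ (((π i : Fin n) : ℕ) + s) / m)).card) ≤
      ∑ i : Fin n, |((i : ℕ) : ℤ) - ((π i : Fin n) : ℕ)| := by
  by_contra hcon
  push Not at hcon
  have h1 : ∑ s ∈ Finset.range m, ∑ i : Fin n, |((i : ℕ) : ℤ) - ((π i : Fin n) : ℕ)| <
      ∑ s ∈ Finset.range m, ((m : ℤ) * (Finset.univ.filter (fun i : Fin n =>
        ((i : ℕ) + s) / m ≠ (((π i : Fin n) : ℕ) + s) / m)).card) := by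
    refine Finset.sum_lt_sum_of_nonempty ⟨0, by simpa using hm⟩ ?_
    intro s hs
    exact hcon s (Finset.mem_range.1 hs)
  rw [Finset.sum_const, Finset.card_range, nsmul_eq_mul, ← Finset.mul_sum] at h1
  have h2 : ∑ s ∈ Finset.range m, ((Finset.univ.filter (fun i : Fin n =>
        ((i : ℕ) + s) / m ≠ (((π i : Fin n) : ℕ) + s) / m)).card : ℤ) =
      ∑ i : Fin n, (((Finset.range m).filter (fun s =>
        ((i : ℕ) + s) / m ≠ (((π i : Fin n) : ℕ) + s) / m)).card : ℤ) := by
    simp only [Finset.card_filter, Nat.cast_sum]
    rw [Finset.sum_comm]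
  rw [h2] at h1
  have h3 : ∑ i : Fin n, (((Finset.range m).filter (fun s =>
        ((i : ℕ) + s) / m ≠ (((π i : Fin n) : ℕ) + s) / m)).card : ℤ) ≤
      ∑ i : Fin n, |((i : ℕ) : ℤ) - ((π i : Fin n) : ℕ)| :=
    Finset.sum_le_sum (fun i _ => count_diff m hm i (π i))
  have h4 : (m : ℤ) * ∑ i : Fin n, (((Finset.range m).filter (fun s =>
        ((i : ℕ) + s) / m ≠ (((π i : Fin n) : ℕ) + s) / m)).card : ℤ) ≤
      (m : ℤ) * ∑ i : Fin n, |((i : ℕ) : ℤ) - ((π i : Fin n) : ℕ)| :=
    mul_le_mul_of_nonneg_left h3 (by omega)
  omega

/-- Permutations of total displacement at most `K n` are sorted by `(1/2 + ε) n` moves. -/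
theorem sortDist_footrule (K ε : ℝ) (hε : 0 < ε) : ∃ n₀ : ℕ, ∀ n ≥ n₀,
    ∀ π : Equiv.Perm (Fin n), (∑ i : Fin n, |((i : ℕ) : ℝ) - ((π i : Fin n) : ℕ)| ≤ K * n) →
    (sortDist π : ℝ) ≤ (1 / 2 + ε) * n := by
  obtain ⟨m, hm⟩ := exists_nat_gt (2 * (3 + 6 * |K|) / ε)
  have hm0 : (0 : ℝ) < m := lt_of_le_of_lt (by positivity) hm
  have hm1 : 0 < m := by exact_mod_cast hm0
  obtain ⟨C, hC⟩ := sortDist_hyper m
  obtain ⟨n₀, hn₀⟩ := exists_nat_gt (2 * (3 + C / 2) / ε)
  refine ⟨n₀, ?_⟩
  intro n hn π hπ
  obtain ⟨s, hs, hs'⟩ := exists_offset m hm1 n π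
  have h1 := sortDist_windows m s hm1 hs C hC n π
  set b := (Finset.univ.filter (fun i : Fin n =>
        ((i : ℕ) + s) / m ≠ (((π i : Fin n) : ℕ) + s) / m)).card with hb
  have h2 : (m : ℝ) * b ≤ ∑ i : Fin n, |((i : ℕ) : ℝ) - ((π i : Fin n) : ℕ)| := by
    exact_mod_cast hs'
  have h3 : (2 : ℝ) * sortDist π ≤ n + 6 * ((n / m : ℕ) + 1) + 12 * b + C := by
    exact_mod_cast h1
  have h4 : ((n / m : ℕ) : ℝ) ≤ (n : ℝ) / m := Nat.cast_div_le
  have h5 : (b : ℝ) ≤ |K| * n / m := by
    rw [le_div_iff₀ hm0, mul_comm]
    refine (h2.trans hπ).trans ?_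
    exact mul_le_mul_of_nonneg_right (le_abs_self K) (by positivity)
  have h6 : (n : ℝ) * (3 + 6 * |K|) / m ≤ ε / 2 * n := by
    rw [div_le_iff₀ hm0]
    have h7 : 2 * (3 + 6 * |K|) < ε * m := by
      rw [div_lt_iff₀ hε] at hm
      linarith
    have hn0 : (0 : ℝ) ≤ n := by positivity
    nlinarith
  have h8 : 3 + (C : ℝ) / 2 ≤ ε / 2 * n := by
    rw [div_lt_iff₀ hε] at hn₀
    have h9 : (n₀ : ℝ) ≤ n := by exact_mod_cast hn
    nlinarith
  have h10 : (n : ℝ) * (3 + 6 * |K|) / m = 3 * ((n : ℝ) / m) + 6 * (|K| * n / m) := by
    field_simp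
  nlinarith

end Pool.Agent.Lib.MP29a61eH
end

section
/-!
# MP_29a61e_co: the parity lower bound for permutations of small displacement
-/
namespace Pool.Agent.Lib.MP29a61eH

open Pool.Agent.Lib.MP29a61e

/-- The number of adjacent pairs with odd sum. -/
def opp : List ℕ → ℕ
  | [] => 0
  | [_] => 0
  | a :: b :: l => (a + b) % 2 + opp (b :: l)

/-- The contribution of the junction of two words. -/
def jn (X Y : List ℕ) : ℕ :=
  match X.getLast?, Y.head? with
  | some a, some b => (a + b) % 2
  | _, _ => 0

theorem opp_append : ∀ X Y : List ℕ, opp (X ++ Y) = opp X + opp Y + jn X Y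
  | [], Y => by simp [opp, jn]
  | [a], Y => by
      cases Y with
      | nil => simp [opp, jn]
      | cons b Y =>
        simp [opp, jn]
        omega
  | a :: b :: X, Y => by
      have ih := opp_append (b :: X) Y
      have h1 : jn (a :: b :: X) Y = jn (b :: X) Y := by
        simp [jn, List.getLast?_cons_cons]
      rw [h1]
      simp only [List.cons_append, opp] at ih ⊢
      omega

theorem jn_reverse (X Y : List ℕ) : jn X Y = jn Y.reverse X.reverse := by
  unfold jn
  rw [List.getLast?_reverse, List.head?_reverse]
  cases X.getLast? <;> cases Y.head? <;> simp [Nat.add_comm]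

theorem opp_reverse : ∀ X : List ℕ, opp X.reverse = opp X
  | [] => rfl
  | [a] => rfl
  | a :: b :: X => by
      have ih := opp_reverse (b :: X)
      have h1 : (a :: b :: X).reverse = (b :: X).reverse ++ [a] := by simp
      rw [h1, opp_append, ih]
      have h2 : jn (b :: X).reverse [a] = (a + b) % 2 := by
        simp [jn, Nat.add_comm]
      rw [h2]
      simp only [opp]
      omega

theorem opp_middle (X B Y : List ℕ) (hB : B ≠ []) :
    opp (X ++ B ++ Y) + jn X Y = opp (X ++ Y) + opp B + jn X B + jn B Y := by
  have h1 : jn (X ++ B) Y = jn B Y := by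
    unfold jn
    rw [List.getLast?_append_of_ne_nil _ hB]
  rw [opp_append, opp_append, opp_append, h1]
  omega

theorem jn_bound (X Y U V B : List ℕ) (hB : B ≠ []) :
    jn U B + jn B V + jn X Y ≤ jn X B + jn B Y + jn U V + 2 ∧
    jn U B.reverse + jn B.reverse V + jn X Y ≤ jn X B + jn B Y + jn U V + 2 := by
  obtain ⟨b1, h1⟩ : ∃ b, B.head? = some b := by
    cases B with
    | nil => exact absurd rfl hB
    | cons b B => exact ⟨b, rfl⟩
  obtain ⟨b2, h2⟩ : ∃ b, B.getLast? = some b :=
    ⟨B.getLast hB, List.getLast?_eq_some_getLast hB⟩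
  unfold jn
  rw [List.getLast?_reverse, List.head?_reverse, h1, h2]
  cases X.getLast? <;> cases Y.head? <;> cases U.getLast? <;> cases V.head? <;>
    simp only [] <;> constructor <;> omega

theorem opp_move {w w' : List ℕ} (h : Move w w') : opp w' ≤ opp w + 2 := by
  obtain ⟨X, B, Y, U, V, hB, rfl, hz, h | h⟩ := h
  · have h1 := opp_middle X B Y hB
    have h2 := opp_middle U B V hB
    have h3 := (jn_bound X Y U V B hB).1
    rw [h]
    rw [hz] at h1
    omega
  · have h1 := opp_middle X B Y hB
    have h2 := opp_middle U B.reverse V (by simpa using hB)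
    have h3 := (jn_bound X Y U V B hB).2
    rw [h]
    rw [hz] at h1
    rw [opp_reverse] at h2
    omega

theorem opp_steps : ∀ {k : ℕ} {w w' : List ℕ}, Steps k w w' → opp w' ≤ opp w + 2 * k
  | 0, w, w', h => by
      have : w = w' := h
      subst this
      omega
  | k + 1, w, w', h => by
      obtain ⟨u, hu, h⟩ := h
      have h1 := opp_move hu
      have h2 := opp_steps h
      omega

theorem move_map {α β : Type} (f : α → β) {w w' : List α} (h : Move w w') :
    Move (w.map f) (w'.map f) := by
  obtain ⟨X, B, Y, U, V, hB, rfl, hz, h | h⟩ := h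
  · exact ⟨X.map f, B.map f, Y.map f, U.map f, V.map f, by simpa using hB, by simp,
      by rw [← List.map_append, hz, List.map_append], Or.inl (by simp [h])⟩
  · exact ⟨X.map f, B.map f, Y.map f, U.map f, V.map f, by simpa using hB, by simp,
      by rw [← List.map_append, hz, List.map_append], Or.inr (by simp [h])⟩

theorem steps_map {α β : Type} (f : α → β) : ∀ {k : ℕ} {w w' : List α}, Steps k w w' →
    Steps k (w.map f) (w'.map f)
  | 0, w, w', h => by
      have : w = w' := h
      subst this
      rfl
  | k + 1, w, w', h => by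
      obtain ⟨u, hu, h⟩ := h
      exact ⟨u.map f, move_map f hu, steps_map f h⟩

theorem opp_range (h : ℕ → ℕ) (n : ℕ) :
    opp ((List.range (n + 1)).map h) = ∑ i ∈ Finset.range n, (h i + h (i + 1)) % 2 := by
  induction n with
  | zero => simp [opp]
  | succ n ih =>
    rw [List.range_succ, List.map_append, opp_append, ih, Finset.sum_range_succ]
    have h1 : jn ((List.range (n + 1)).map h) ([n + 1].map h) = (h n + h (n + 1)) % 2 := by
      rw [List.range_succ]
      simp [jn]
    rw [h1]
    simp [opp]

theorem steps_sortDist {n : ℕ} (π : Equiv.Perm (Fin n)) :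
    Steps (sortDist π) (List.ofFn π) (List.finRange n) := by
  have hne : {k | Steps k (List.ofFn π) (List.finRange n)}.Nonempty := by
    obtain ⟨k, _, h⟩ := insertion (List.finRange n) (List.ofFn π) [] [] (ofFn_perm π)
    exact ⟨k, by simpa using h⟩
  exact Nat.sInf_mem hne

theorem sortDist_ge (n : ℕ) (π : Equiv.Perm (Fin (n + 1))) (h : ℕ → ℕ)
    (hπ : ∀ i, ((π i : Fin (n + 1)) : ℕ) = h i) :
    n ≤ 2 * sortDist π + ∑ i ∈ Finset.range n, (h i + h (i + 1)) % 2 := by
  have h1 := opp_steps (steps_map (fun x : Fin (n + 1) => (x : ℕ)) (steps_sortDist π))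
  have h2 : (List.ofFn π).map (fun x : Fin (n + 1) => (x : ℕ)) =
      (List.range (n + 1)).map h := by
    rw [List.map_ofFn]
    apply List.ext_getElem
    · simp
    · intro i h1 h2
      simp only [List.getElem_ofFn, Function.comp_apply, hπ, List.getElem_map,
        List.getElem_range]
  have h3 : (List.finRange (n + 1)).map (fun x : Fin (n + 1) => (x : ℕ)) =
      (List.range (n + 1)).map id := by
    apply List.ext_getElem
    · simp
    · intro i h1 h2
      simp
  rw [h2, h3, opp_range, opp_range] at h1
  have h4 : ∑ i ∈ Finset.range n, (id i + id (i + 1)) % 2 = n := by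
    rw [Finset.sum_congr rfl (g := fun _ => 1) (by intro i _; simp only [id]; omega)]
    simp
  omega

/-- The shuffle of a block of length `2 s`: first the even, then the odd letters. -/
def shuf (s r : ℕ) : ℕ := if r < s then 2 * r else 2 * (r - s) + 1

/-- The shuffle of all complete blocks of length `2 s` of `{0, .., n-1}`. -/
def blk (s n p : ℕ) : ℕ :=
  if p < 2 * s * (n / (2 * s)) then 2 * s * (p / (2 * s)) + shuf s (p % (2 * s)) else p

theorem shuf_lt {s r : ℕ} (h : r < 2 * s) : shuf s r < 2 * s := by
  unfold shuf
  split_ifs <;> omega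

theorem shuf_inj {s r r' : ℕ} (e : shuf s r = shuf s r') : r = r' := by
  unfold shuf at e
  split_ifs at e <;> omega

theorem blk_div {s n p : ℕ} (hs : 0 < s) (hp : p < 2 * s * (n / (2 * s))) :
    blk s n p / (2 * s) = p / (2 * s) ∧ blk s n p % (2 * s) = shuf s (p % (2 * s)) := by
  have h1 : shuf s (p % (2 * s)) < 2 * s := shuf_lt (Nat.mod_lt _ (by omega))
  unfold blk
  rw [if_pos hp]
  constructor
  · rw [Nat.mul_add_div (by omega), Nat.div_eq_of_lt h1, add_zero]
  · rw [Nat.mul_add_mod, Nat.mod_eq_of_lt h1]

theorem blk_lt_blocks {s n p : ℕ} (hs : 0 < s) (hp : p < 2 * s * (n / (2 * s))) :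
    blk s n p < 2 * s * (n / (2 * s)) := by
  have h := (blk_div hs hp).1
  have h1 : p / (2 * s) < n / (2 * s) := by
    rw [Nat.div_lt_iff_lt_mul (by omega)]
    rwa [Nat.mul_comm] at hp
  rw [← h] at h1
  rw [Nat.div_lt_iff_lt_mul (by omega)] at h1
  rwa [Nat.mul_comm]

theorem blk_lt {s n p : ℕ} (hs : 0 < s) (hp : p < n) : blk s n p < n := by
  by_cases h : p < 2 * s * (n / (2 * s))
  · exact lt_of_lt_of_le (blk_lt_blocks hs h) (Nat.mul_div_le n (2 * s))
  · unfold blk
    rwa [if_neg h]

theorem blk_inj {s n p p' : ℕ} (hs : 0 < s) (e : blk s n p = blk s n p') : p = p' := by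
  by_cases h : p < 2 * s * (n / (2 * s)) <;> by_cases h' : p' < 2 * s * (n / (2 * s))
  · have h1 := blk_div hs h
    have h2 := blk_div hs h'
    rw [e] at h1
    have h3 : p % (2 * s) = p' % (2 * s) :=
      shuf_inj (h1.2.symm.trans h2.2)
    have h4 : p / (2 * s) = p' / (2 * s) := h1.1.symm.trans h2.1
    rw [← Nat.div_add_mod p (2 * s), ← Nat.div_add_mod p' (2 * s), h3, h4]
  · have h1 := blk_lt_blocks hs h
    rw [e] at h1
    unfold blk at h1
    rw [if_neg h'] at h1
    exact absurd h1 h'
  · have h1 := blk_lt_blocks hs h'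
    rw [← e] at h1
    unfold blk at h1
    rw [if_neg h] at h1
    exact absurd h1 h
  · unfold blk at e
    rwa [if_neg h, if_neg h'] at e

theorem blk_near {s n p : ℕ} (hs : 0 < s) : |((p : ℕ) : ℤ) - blk s n p| ≤ 2 * s := by
  by_cases h : p < 2 * s * (n / (2 * s))
  · have h1 := blk_div hs h
    have h2 := Nat.div_add_mod p (2 * s)
    have h3 := Nat.div_add_mod (blk s n p) (2 * s)
    rw [h1.1] at h3
    have h4 : p % (2 * s) < 2 * s := Nat.mod_lt _ (by omega)
    have h5 : blk s n p % (2 * s) < 2 * s := Nat.mod_lt _ (by omega)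
    rw [abs_le]
    constructor <;> omega
  · unfold blk
    rw [if_neg h]
    simp

theorem blk_parity {s n i : ℕ} (hs : 0 < s) (h1 : i + 1 < 2 * s * (n / (2 * s)))
    (h2 : i / (2 * s) = (i + 1) / (2 * s)) (h3 : (i + s) / (2 * s) = (i + 1 + s) / (2 * s)) :
    (blk s n i + blk s n (i + 1)) % 2 = 0 := by
  have e0 : i < 2 * s * (n / (2 * s)) := by omega
  have hr : i % (2 * s) < 2 * s := Nat.mod_lt _ (by omega)
  have hr1 : (i + 1) % (2 * s) < 2 * s := Nat.mod_lt _ (by omega)
  have hi := Nat.div_add_mod i (2 * s)
  have hi1 := Nat.div_add_mod (i + 1) (2 * s)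
  rw [← h2] at hi1
  have e1 : (i + 1) % (2 * s) = i % (2 * s) + 1 := by omega
  have e2 : i % (2 * s) + 1 ≠ s := by
    intro hcon
    have a1 : (i + s) / (2 * s) = i / (2 * s) := by
      rw [← Nat.div_add_mod i (2 * s)]
      rw [show 2 * s * (i / (2 * s)) + i % (2 * s) + s =
        2 * s * (i / (2 * s)) + (i % (2 * s) + s) by omega]
      rw [Nat.mul_add_div (by omega), Nat.div_eq_of_lt (show i % (2 * s) + s < 2 * s by omega),
        Nat.mul_add_div (by omega), Nat.div_eq_of_lt hr]
    have a2 : (i + 1 + s) / (2 * s) = i / (2 * s) + 1 := by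
      have : i + 1 + s = 2 * s * (i / (2 * s)) + 2 * s := by omega
      rw [this, Nat.mul_add_div (by omega), Nat.div_self (by omega)]
    omega
  unfold blk
  rw [if_pos h1, if_pos e0, ← h2, e1]
  have e3 : (shuf s (i % (2 * s)) + shuf s (i % (2 * s) + 1)) % 2 = 0 := by
    unfold shuf
    split_ifs <;> omega
  have e4 : 2 * s * (i / (2 * s)) + shuf s (i % (2 * s)) +
      (2 * s * (i / (2 * s)) + shuf s (i % (2 * s) + 1)) =
      2 * (2 * s * (i / (2 * s))) + (shuf s (i % (2 * s)) + shuf s (i % (2 * s) + 1)) := by ring
  rw [e4]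
  omega

theorem blk_sum (s n : ℕ) (hs : 0 < s) :
    ∑ i ∈ Finset.range n, (blk s (n + 1) i + blk s (n + 1) (i + 1)) % 2 ≤
      2 * (n / (2 * s) + 1) + 2 * s := by
  have h1 : ∀ i ∈ Finset.range n, (blk s (n + 1) i + blk s (n + 1) (i + 1)) % 2 ≤
      (if i / (2 * s) ≠ (i + 1) / (2 * s) then 1 else 0) +
      (if (i + s) / (2 * s) ≠ (i + 1 + s) / (2 * s) then 1 else 0) +
      (if 2 * s * ((n + 1) / (2 * s)) ≤ i + 1 then 1 else 0) := by
    intro i _
    by_cases a : i / (2 * s) = (i + 1) / (2 * s)
    · by_cases b : (i + s) / (2 * s) = (i + 1 + s) / (2 * s)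
      · by_cases c : 2 * s * ((n + 1) / (2 * s)) ≤ i + 1
        · rw [if_pos c]
          omega
        · have := blk_parity hs (not_le.1 c) a b
          omega
      · rw [if_pos b]
        omega
    · rw [if_pos a]
      omega
  refine (Finset.sum_le_sum h1).trans ?_
  rw [Finset.sum_add_distrib, Finset.sum_add_distrib, ← Finset.card_filter, ← Finset.card_filter,
    ← Finset.card_filter]
  have a1 := count_change (2 * s) n 0 (by omega) (by omega)
  have a2 := count_change (2 * s) n s (by omega) (by omega)
  simp only [add_zero] at a1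
  have a3 : ((Finset.range n).filter (fun i => 2 * s * ((n + 1) / (2 * s)) ≤ i + 1)).card ≤
      2 * s := by
    have h2 : (Finset.range n).filter (fun i => 2 * s * ((n + 1) / (2 * s)) ≤ i + 1) ⊆
        Finset.Ico (2 * s * ((n + 1) / (2 * s)) - 1) n := by
      intro i hi
      rw [Finset.mem_filter, Finset.mem_range] at hi
      rw [Finset.mem_Ico]
      omega
    refine (Finset.card_le_card h2).trans ?_
    rw [Nat.card_Ico]
    have h3 := Nat.div_add_mod (n + 1) (2 * s)
    have h4 : (n + 1) % (2 * s) < 2 * s := Nat.mod_lt _ (by omega)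
    omega
  omega

/-- Permutations of displacement at most `2 s` that need about `n / 2` moves. -/
theorem exists_hard (s n : ℕ) (hs : 0 < s) : ∃ π : Equiv.Perm (Fin (n + 1)),
    (∀ i : Fin (n + 1), |((i : ℕ) : ℤ) - ((π i : Fin (n + 1)) : ℕ)| ≤ 2 * s) ∧
    n ≤ 2 * sortDist π + 2 * (n / (2 * s) + 1) + 2 * s := by
  let f : Fin (n + 1) → Fin (n + 1) := fun i => ⟨blk s (n + 1) i, blk_lt hs i.isLt⟩
  have hf : Function.Injective f := by
    intro a b h
    apply Fin.ext
    exact blk_inj hs (congrArg (fun x : Fin (n + 1) => (x : ℕ)) h)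
  have hval : ∀ i : Fin (n + 1),
      ((Equiv.ofBijective f (Finite.injective_iff_bijective.1 hf) i : Fin (n + 1)) : ℕ) =
        blk s (n + 1) i := by
    intro i
    rw [Equiv.ofBijective_apply]
  refine ⟨Equiv.ofBijective f (Finite.injective_iff_bijective.1 hf), ?_, ?_⟩
  · intro i
    rw [hval i]
    exact blk_near hs
  · have h1 := sortDist_ge n (Equiv.ofBijective f (Finite.injective_iff_bijective.1 hf))
      (blk s (n + 1)) hval
    have h2 := blk_sum s n hs
    omega

/-- The parity lower bound inside the permutations of bounded displacement. -/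
theorem lower (ε : ℝ) (hε : 0 < ε) : ∃ K n₀ : ℕ, ∀ n ≥ n₀, ∃ π : Equiv.Perm (Fin n),
    (∀ i : Fin n, |((i : ℕ) : ℝ) - ((π i : Fin n) : ℕ)| ≤ K) ∧
    (1 / 2 - ε) * n ≤ (sortDist π : ℝ) := by
  obtain ⟨s, hs⟩ := exists_nat_gt (1 / ε)
  have hs0 : (0 : ℝ) < s := lt_trans (by positivity) hs
  have hs1 : 0 < s := by exact_mod_cast hs0
  obtain ⟨n₀, hn₀⟩ := exists_nat_gt ((3 + 2 * (s : ℝ)) / ε)
  refine ⟨2 * s, n₀ + 1, ?_⟩
  intro n hn
  obtain ⟨N, rfl⟩ : ∃ N, n = N + 1 := ⟨n - 1, by omega⟩
  obtain ⟨π, h1, h2⟩ := exists_hard s N hs1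
  refine ⟨π, ?_, ?_⟩
  · intro i
    have := h1 i
    have h3 : |((i : ℕ) : ℝ) - ((π i : Fin (N + 1)) : ℕ)| ≤ ((2 * s : ℤ) : ℝ) := by
      exact_mod_cast this
    simpa using h3
  · have h3 : (N : ℝ) ≤ 2 * sortDist π + 2 * ((N / (2 * s) : ℕ) + 1) + 2 * s := by
      exact_mod_cast h2
    have h4 : ((N / (2 * s) : ℕ) : ℝ) ≤ (N : ℝ) / ((2 * s : ℕ) : ℝ) := Nat.cast_div_le
    have h5 : (N : ℝ) / ((2 * s : ℕ) : ℝ) ≤ ε / 2 * N := by
      push_cast
      rw [div_le_iff₀ (by positivity)]
      have h6 : 1 < ε * s := by
        rw [div_lt_iff₀ hε] at hs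
        linarith
      have h7 : (0 : ℝ) ≤ N := by positivity
      nlinarith
    have h8 : 3 + 2 * (s : ℝ) ≤ ε * (N + 1) := by
      rw [div_lt_iff₀ hε] at hn₀
      have h9 : (n₀ : ℝ) ≤ N := by
        have : n₀ ≤ N := by omega
        exact_mod_cast this
      nlinarith
    push_cast
    nlinarith

end Pool.Agent.Lib.MP29a61eH
end
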